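import Mathlib
import Pool.Agent.Helper151.NS.Final
import Pool.Agent.Helper151.NS.VBridge

set_option autoImplicit false

namespace Pool.Agent.Results.MP_8fc134_al.RowThree

/-- `a 0 < a 1 < ... < a e` is the minimal generating set of a numerical semigroup of
multiplicity `a 0 = m` (and of embedding dimension `e + 1`). -/
structure IsGens {e : ℕ} (m : ℕ) (a : Fin (e + 1) → ℕ) : Prop where
  mono : StrictMono a
  mult : a 0 = m
  gcd : Finset.univ.gcd a = 1
  minimal : ∀ i : Fin (e + 1), a i ∉ AddSubmonoid.closure (a '' {j : Fin (e + 1) | j ≠ i})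

/-- The number of minimal relations of the numerical semigroup generated by the `a i`, that is the
least number of generators of its defining toric ideal, the kernel of
`ℚ[x_0, ..., x_{k-1}] → ℚ[t]`, `x_i ↦ t ^ (a i)`. -/
noncomputable def rho {k : ℕ} (a : Fin k → ℕ) : ℕ :=
  sInf {n : ℕ | ∃ s : Finset (MvPolynomial (Fin k) ℚ), s.card = n ∧
    Ideal.span (s : Set (MvPolynomial (Fin k) ℚ)) =
      RingHom.ker (MvPolynomial.aeval
        (fun i : Fin k => (Polynomial.X : Polynomial ℚ) ^ (a i)))}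

/-- `R(e, m)`: the supremum of the number of minimal relations over the numerical semigroups of
embedding dimension `e + 1` and multiplicity `m`. -/
noncomputable def R (e m : ℕ) : ℕ∞ :=
  ⨆ a : {a : Fin (e + 1) → ℕ // IsGens m a}, (rho a.1 : ℕ∞)

/-- `u` is the value of `n` at the Macaulay operator of degree `d`, `u = n^<d>`: either both are
zero, or `n` is the sum of the binomial coefficients `choose (f i) i` for `j ≤ i ≤ d`, with `f`
strictly increasing and `j ≤ f j`, and `u` is the sum of the `choose (f i + 1) (i + 1)`. -/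
def IsUpper (n d u : ℕ) : Prop :=
  (n = 0 ∧ u = 0) ∨ ∃ (j : ℕ) (f : ℕ → ℕ), 1 ≤ j ∧ j ≤ d ∧ j ≤ f j ∧
    (∀ i, j ≤ i → i < d → f i < f (i + 1)) ∧
    n = ∑ i ∈ Finset.Icc j d, (f i).choose i ∧
    u = ∑ i ∈ Finset.Icc j d, (f i + 1).choose (i + 1)

/-- `c = C(e, m)` is the general upper bound for embedding dimension `e + 1` and multiplicity
`m`. -/
def IsGeneralBound (e m c : ℕ) : Prop :=
  ∃ r s u : ℕ, 1 ≤ r ∧ (e + r - 1).choose (r - 1) ≤ m ∧ m < (e + r).choose r ∧
    m = (e + r - 1).choose (r - 1) + s ∧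
    IsUpper s r u ∧ c + s = (e + r - 1).choose r + u

theorem R_three (m : ℕ) (hm : 3 < m) : R 3 m = ((2 + Nat.sqrt (4 * m) : ℕ) : ℕ∞) := by
  have h := Pool.Agent.Helper151.NS.main_of_comb
    (fun m r B C hm h => Pool.Agent.Helper151.NS.VBridge.comb m r B C hm h) m hm
  rw [Pool.Agent.Helper151.NS.floor_eq] at h
  obtain ⟨h1, a, ha1, ha2, ha3, ha4, ha5⟩ := h
  apply le_antisymm
  · apply iSup_le
    rintro ⟨b, hb⟩
    have := h1 b hb.mono hb.mult hb.gcd hb.minimal
    exact_mod_cast this
  · refine le_iSup_of_le ⟨a, ⟨ha1, ha2, ha3, ha4⟩⟩ ?_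
    have : rho a = 2 + Nat.sqrt (4 * m) := ha5
    rw [this]

theorem upper_ge {n d u : ℕ} (h : IsUpper n d u) : n ≤ u := by
  rcases h with ⟨rfl, rfl⟩ | ⟨j, f, hj, hjd, hf, hmono, rfl, rfl⟩
  · exact le_rfl
  · apply Finset.sum_le_sum
    intro i _
    rw [Nat.choose_succ_succ]
    exact Nat.le_add_right _ _

/-- for `r = 3` and `6 ≤ s ≤ 9` the Macaulay operator increases the argument -/
theorem upper_three {s u : ℕ} (hs : 6 ≤ s) (hs' : s ≤ 9) (h : IsUpper s 3 u) : s + 1 ≤ u := by
  rcases h with ⟨rfl, rfl⟩ | ⟨j, f, hj, hjd, hf, hmono, h1, h2⟩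
  · omega
  · -- f 3 ≤ 4
    have h3 : (f 3).choose 3 ≤ s := by
      rw [h1]
      exact Finset.single_le_sum (f := fun i => (f i).choose i) (fun i _ => Nat.zero_le _)
        (Finset.mem_Icc.mpr ⟨hjd, le_rfl⟩)
    have h4 : f 3 ≤ 4 := by
      by_contra hc
      have : (5 : ℕ).choose 3 ≤ (f 3).choose 3 := Nat.choose_le_choose 3 (by omega)
      have e : (5 : ℕ).choose 3 = 10 := by decide
      omega
    have h5 : 4 ≤ f 3 := by
      by_contra hc
      have hle : s ≤ 3 := by
        rw [h1]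
        have hsub : ∀ i ∈ Finset.Icc j 3, f i ≤ i := by
          intro i hi
          rw [Finset.mem_Icc] at hi
          have hb1 : j = 1 ∨ j = 2 ∨ j = 3 := by omega
          have hb2 : i = 1 ∨ i = 2 ∨ i = 3 := by omega
          rcases hb2 with rfl | rfl | rfl
          · have e1 := hmono 1 hi.1 (by norm_num)
            have e2 := hmono 2 (by omega) (by norm_num)
            norm_num at e1 e2
            omega
          · have e2 := hmono 2 hi.1 (by norm_num)
            norm_num at e2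
            omega
          · omega
        calc ∑ i ∈ Finset.Icc j 3, (f i).choose i ≤ ∑ i ∈ Finset.Icc j 3, 1 := by
              apply Finset.sum_le_sum
              intro i hi
              calc (f i).choose i ≤ i.choose i := Nat.choose_le_choose i (hsub i hi)
                _ = 1 := Nat.choose_self i
          _ ≤ 3 := by
              rw [Finset.sum_const, Nat.card_Icc]
              simp
              omega
      omega
    have h6 : f 3 = 4 := by omega
    have hmem : 3 ∈ Finset.Icc j 3 := Finset.mem_Icc.mpr ⟨hjd, le_rfl⟩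
    rw [← Finset.add_sum_erase _ _ hmem] at h1 h2
    rw [h6] at h1 h2
    have e1 : (4 : ℕ).choose 3 = 4 := by decide
    have e2 : (4 + 1 : ℕ).choose (3 + 1) = 5 := by decide
    rw [e1] at h1
    rw [e2] at h2
    have h7 : ∑ i ∈ (Finset.Icc j 3).erase 3, (f i).choose i ≤
        ∑ i ∈ (Finset.Icc j 3).erase 3, (f i + 1).choose (i + 1) := by
      apply Finset.sum_le_sum
      intro i _
      rw [Nat.choose_succ_succ]
      exact Nat.le_add_right _ _
    omega

theorem choose_two' (r : ℕ) : 2 * (3 + r - 1).choose r = (r + 2) * (r + 1) := by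
  have e : 3 + r - 1 = r + 2 := by omega
  rw [e]
  have : (r + 2).choose r = (r + 2).choose 2 := by
    rw [← Nat.choose_symm (show 2 ≤ r + 2 by omega)]
    congr 1
  rw [this, Nat.choose_two_right]
  have : 2 ∣ (r + 2) * (r + 2 - 1) := by
    have := Nat.even_mul_pred_self (r + 2)
    exact this.two_dvd
  rw [Nat.mul_div_cancel' this]
  congr 1

theorem choose_three' (r : ℕ) : 6 * (3 + r).choose r = (r + 3) * (r + 2) * (r + 1) := by
  have : (3 + r).choose r = (r + 3).choose 3 := by
    rw [add_comm 3 r, ← Nat.choose_symm (show 3 ≤ r + 3 by omega)]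
    congr 1
  rw [this]
  induction r with
  | zero => decide
  | succ n ih =>
    have e : (n + 1 + 3).choose 3 = (n + 3).choose 2 + (n + 3).choose 3 := by
      rw [show n + 1 + 3 = (n + 3) + 1 by ring, Nat.choose_succ_succ]
    have e2 : 2 * (n + 3).choose 2 = (n + 3) * (n + 2) := by
      rw [Nat.choose_two_right]
      have : 2 ∣ (n + 3) * (n + 3 - 1) := (Nat.even_mul_pred_self (n + 3)).two_dvd
      rw [Nat.mul_div_cancel' this]
      congr 1
    have ih' : 6 * (n + 3).choose 3 = (n + 3) * (n + 2) * (n + 1) := by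
      apply ih
      rw [add_comm 3 n, ← Nat.choose_symm (show 3 ≤ n + 3 by omega)]
      congr 1
    rw [e, mul_add, ih']
    have : 6 * (n + 3).choose 2 = 3 * ((n + 3) * (n + 2)) := by
      rw [← e2]; ring
    rw [this]; ring

/-- From `m = 10` on the general bound is larger than `2 + 2 √m`. -/
theorem bound_gt (m c : ℕ) (hm : 10 ≤ m) (h : IsGeneralBound 3 m c) :
    2 + Nat.sqrt (4 * m) < c := by
  obtain ⟨r, s, u, hr, h1, h2, h3, hu, hc⟩ := h
  have hsu := upper_ge hu
  have hch2 := choose_two' r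
  have hch3 := choose_three' r
  -- r ≥ 3
  have hr3 : 3 ≤ r := by
    by_contra hlt
    have hcase : r = 1 ∨ r = 2 := by omega
    rcases hcase with rfl | rfl
    · have e1 : (3 + 1 : ℕ).choose 1 = 4 := by decide
      rw [e1] at h2
      omega
    · have e1 : (3 + 2 : ℕ).choose 2 = 10 := by decide
      rw [e1] at h2
      omega
  have key : ∀ t, Nat.sqrt (4 * m) < t ↔ 4 * m < t * t := fun t => Nat.sqrt_lt
  rcases Nat.eq_or_lt_of_le hr3 with rfl | hr4
  · -- r = 3
    norm_num at hch2 hch3 h1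
    have e1 : (3 + 3 - 1 : ℕ).choose (3 - 1) = 10 := by decide
    rw [e1] at h3
    have e2 : (3 + 3 - 1 : ℕ).choose 3 = 10 := by decide
    have e3 : (3 + 3 : ℕ).choose 3 = 20 := by decide
    rw [e2] at hc
    rw [e3] at h2
    by_cases h16 : m ≤ 15
    · have : Nat.sqrt (4 * m) < 8 := (key 8).mpr (by omega)
      omega
    · have h5 := upper_three (by omega) (by omega) hu
      have : Nat.sqrt (4 * m) < 9 := (key 9).mpr (by omega)
      omega
  · -- r ≥ 4
    have hcge : (3 + r - 1).choose r ≤ c := by omega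
    have h6 : 6 * m < (r + 3) * (r + 2) * (r + 1) := by
      have : 6 * m < 6 * (3 + r).choose r := by omega
      omega
    obtain ⟨k, rfl⟩ : ∃ k, r = k + 4 := ⟨r - 4, by omega⟩
    set B := (3 + (k + 4) - 1).choose (k + 4) with hB
    have hB2 : 2 * B = (k + 6) * (k + 5) := by rw [hch2]
    have h7 : Nat.sqrt (4 * m) < B - 2 := by
      rw [key]
      obtain ⟨b, hb⟩ : ∃ b, B = b + 2 := ⟨B - 2, by nlinarith [Nat.sub_add_cancel (show 2 ≤ B by nlinarith)]⟩
      rw [hb] at hB2 ⊢
      rw [Nat.add_sub_cancel]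
      have hb2 : 2 * b = (k + 6) * (k + 5) - 4 := by omega
      have hb3 : 2 * b = k * k + 11 * k + 26 := by nlinarith
      have h8 : 6 * m < (k + 4 + 3) * (k + 4 + 2) * (k + 4 + 1) := h6
      have h9 : 24 * (b * b) = 6 * ((k * k + 11 * k + 26) * (k * k + 11 * k + 26)) := by
        rw [← hb3]; ring
      nlinarith [Nat.zero_le (k * k), Nat.zero_le (k * k * k), Nat.zero_le (k * k * k * k)]
    omega

theorem bound_small (m : ℕ) (hm : 3 < m) (hm' : m ≤ 9) :
    IsGeneralBound 3 m (2 + Nat.sqrt (4 * m)) := by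
  have key : ∀ t, Nat.sqrt (4 * m) = t ↔ t * t ≤ 4 * m ∧ 4 * m < (t + 1) * (t + 1) := by
    intro t
    rw [eq_comm, Nat.eq_sqrt]
  have e0 : (3 + 2 - 1 : ℕ).choose (2 - 1) = 4 := by decide
  have e1 : (3 + 2 : ℕ).choose 2 = 10 := by decide
  have e2 : (3 + 2 - 1 : ℕ).choose 2 = 6 := by decide
  have main : ∀ s u : ℕ, m = 4 + s → IsUpper s 2 u → 2 + Nat.sqrt (4 * m) + s = 6 + u →
      IsGeneralBound 3 m (2 + Nat.sqrt (4 * m)) := by
    intro s u h1 h2 h3
    refine ⟨2, s, u, by norm_num, ?_, ?_, ?_, h2, ?_⟩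
    · rw [e0]; omega
    · rw [e1]; omega
    · rw [e0]; omega
    · rw [e2]; exact h3
  have i2 : Finset.Icc 2 2 = {2} := by decide
  have i1 : Finset.Icc 1 2 = {1, 2} := by decide
  have up2 : ∀ p, 2 ≤ p → IsUpper (p.choose 2) 2 ((p + 1).choose 3) := by
    intro p hp
    right
    refine ⟨2, fun _ => p, by norm_num, le_rfl, hp, fun i h1 h2 => by omega, ?_, ?_⟩
    · rw [i2, Finset.sum_singleton]
    · rw [i2, Finset.sum_singleton]
  have up1 : ∀ p q, 1 ≤ q → q < p → IsUpper (q + p.choose 2) 2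
      ((q + 1).choose 2 + (p + 1).choose 3) := by
    intro p q hq hqp
    right
    refine ⟨1, fun i => if i = 1 then q else p, by norm_num, by norm_num, by simpa using hq,
      fun i h1 h2 => ?_, ?_, ?_⟩
    · have : i = 1 := by omega
      subst this
      simpa using hqp
    · rw [i1, Finset.sum_insert (by decide), Finset.sum_singleton]
      simp
    · rw [i1, Finset.sum_insert (by decide), Finset.sum_singleton]
      simp
  have hcase : m = 4 ∨ m = 5 ∨ m = 6 ∨ m = 7 ∨ m = 8 ∨ m = 9 := by omega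
  rcases hcase with rfl | rfl | rfl | rfl | rfl | rfl
  · refine main 0 0 rfl (Or.inl ⟨rfl, rfl⟩) ?_
    rw [(key 4).mpr (by norm_num)]
  · refine main 1 1 rfl ?_ ?_
    · simpa using up2 2 le_rfl
    · rw [(key 4).mpr (by norm_num)]
  · refine main 2 2 rfl ?_ ?_
    · simpa using up1 2 1 le_rfl (by norm_num)
    · rw [(key 4).mpr (by norm_num)]
  · refine main 3 4 rfl ?_ ?_
    · have := up2 3 (by norm_num)
      have a1 : (3 : ℕ).choose 2 = 3 := by decide
      have a2 : (3 + 1 : ℕ).choose 3 = 4 := by decide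
      rwa [a1, a2] at this
    · rw [(key 5).mpr (by norm_num)]
  · refine main 4 5 rfl ?_ ?_
    · have := up1 3 1 (by norm_num) (by norm_num)
      have a1 : 1 + (3 : ℕ).choose 2 = 4 := by decide
      have a2 : (1 + 1 : ℕ).choose 2 + (3 + 1 : ℕ).choose 3 = 5 := by decide
      rwa [a1, a2] at this
    · rw [(key 5).mpr (by norm_num)]
  · refine main 5 7 rfl ?_ ?_
    · have := up1 3 2 (by norm_num) (by norm_num)
      have a1 : 2 + (3 : ℕ).choose 2 = 5 := by decide
      have a2 : (2 + 1 : ℕ).choose 2 + (3 + 1 : ℕ).choose 3 = 7 := by decide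
      rwa [a1, a2] at this
    · rw [(key 6).mpr (by norm_num)]

/-- The row `e = 3` of the question: for `m > 3`, `R(3, m) = C(3, m)` holds exactly when `m ≤ 9`;
for `m ≥ 10`, `R(3, m) < C(3, m)`. -/
theorem result :
    (∀ m : ℕ, 3 < m → ((∃ c : ℕ, IsGeneralBound 3 m c ∧ R 3 m = c) ↔ m ≤ 9)) ∧
    (∀ m c : ℕ, 10 ≤ m → IsGeneralBound 3 m c → R 3 m < c) := by
  have hlt : ∀ m c : ℕ, 10 ≤ m → IsGeneralBound 3 m c → R 3 m < c := by
    intro m c hm hc
    rw [R_three m (by omega)]
    exact_mod_cast bound_gt m c hm hc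
  refine ⟨fun m hm => ⟨?_, ?_⟩, hlt⟩
  · rintro ⟨c, hc, hR⟩
    by_contra hlt9
    exact (hlt m c (by omega) hc).ne hR
  · intro hm9
    exact ⟨_, bound_small m hm hm9, R_three m hm⟩

end Pool.Agent.Results.MP_8fc134_al.RowThree
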